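import Pool.Agent.D0H44.EL.Main

/-! An unconditional lower bound for the variance of primes in short intervals of every length up
to `X ^ (1 - ε)`. -/

open MeasureTheory Filter

namespace Pool.Agent.Results.MP_2a816b_nt.EveryLength

open Pool.Agent.D0H44.EL

/-- The weighted number of prime powers in the interval of length `H` centred at `x`. -/
noncomputable def psi (x H : ℝ) : ℝ :=
  ∑ᶠ n ∈ {n : ℕ | 1 ≤ n ∧ x - H / 2 ≤ n ∧ (n : ℝ) ≤ x + H / 2}, ArithmeticFunction.vonMangoldt n

theorem sq_int (X H : ℝ) :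
    IntegrableOn (fun x => |psi x H - H| ^ 2) (Set.Icc 1 X) := by
  have h1 := DD_sq_int ⌈X + |H|⌉₊ H 1 X
  refine h1.congr_fun ?_ measurableSet_Icc
  intro x hx
  simp only
  rw [sq_abs]
  have h2 : psi x H - H = H321VP.DD ⌈X + |H|⌉₊ H x := by
    apply H321VP.psi_eq
    have := Nat.le_ceil (X + |H|)
    have := hx.2
    have := le_abs_self H
    have := abs_nonneg H
    linarith
  rw [h2]

/-- the part of the integral over `[1, H]` (there the interval is cut at `1`) is small -/
theorem edge (X H L : ℝ) (hH : 1 ≤ H) (hHX : 2 * H ≤ X) (hL : 1 + Real.log X ≤ L) :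
    ∫ x in (1 : ℝ)..H, |psi x H - H| ^ 2 ≤ H * (2 * H * L) ^ 2 := by
  have hX1 : 1 ≤ X := by linarith
  have hL1 : 1 ≤ L := by
    have := Real.log_nonneg hX1
    linarith
  have hb : ∀ x ∈ Set.Icc (1 : ℝ) H, |psi x H - H| ^ 2 ≤ (2 * H * L) ^ 2 := by
    intro x hx
    have h1 : psi x H = ∑ n ∈ (Finset.Icc 1 ⌊x + H / 2⌋₊).filter (fun n : ℕ => x - H / 2 ≤ n),
        ArithmeticFunction.vonMangoldt n := by
      have hs : {n : ℕ | 1 ≤ n ∧ x - H / 2 ≤ n ∧ (n : ℝ) ≤ x + H / 2} =
          ↑((Finset.Icc 1 ⌊x + H / 2⌋₊).filter (fun n : ℕ => x - H / 2 ≤ n)) := by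
        ext n
        rw [Finset.coe_filter]
        constructor
        · rintro ⟨h1, h2, h3⟩
          exact ⟨Finset.mem_Icc.2 ⟨h1, Nat.le_floor h3⟩, h2⟩
        · rintro ⟨h1, h3⟩
          rw [Finset.mem_Icc] at h1
          exact ⟨h1.1, h3, (Nat.le_floor_iff (by linarith [hx.1])).1 h1.2⟩
      unfold psi
      rw [hs, finsum_mem_coe_finset]
    have h0 : 0 ≤ psi x H := by
      rw [h1]
      exact Finset.sum_nonneg fun n _ => ArithmeticFunction.vonMangoldt_nonneg
    have h2 : psi x H ≤ 2 * H * L := by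
      rw [h1]
      calc ∑ n ∈ (Finset.Icc 1 ⌊x + H / 2⌋₊).filter (fun n : ℕ => x - H / 2 ≤ n),
            ArithmeticFunction.vonMangoldt n ≤
          ∑ n ∈ Finset.Icc 1 ⌊x + H / 2⌋₊, ArithmeticFunction.vonMangoldt n := by
            apply Finset.sum_le_sum_of_subset_of_nonneg (Finset.filter_subset _ _)
            intro n _ _
            exact ArithmeticFunction.vonMangoldt_nonneg
        _ ≤ ∑ n ∈ Finset.Icc 1 ⌊x + H / 2⌋₊, L := by
            apply Finset.sum_le_sum
            intro n hn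
            rw [Finset.mem_Icc] at hn
            refine ArithmeticFunction.vonMangoldt_le_log.trans ?_
            have h3 : (n : ℝ) ≤ X := by
              have := (Nat.le_floor_iff (by linarith [hx.1])).1 hn.2
              linarith [hx.2]
            have h4 : (0 : ℝ) < n := by exact_mod_cast (by omega : 0 < n)
            have := Real.log_le_log h4 h3
            linarith
        _ = ⌊x + H / 2⌋₊ * L := by
            rw [Finset.sum_const, nsmul_eq_mul, Nat.card_Icc, Nat.add_sub_cancel]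
        _ ≤ 2 * H * L := by
            gcongr
            refine (Nat.floor_le (by linarith [hx.1])).trans ?_
            linarith [hx.2]
    have h5 : |psi x H - H| ≤ 2 * H * L := by
      rw [abs_le]
      constructor
      · have : H ≤ 2 * H * L := by nlinarith
        linarith
      · linarith
    exact pow_le_pow_left₀ (abs_nonneg _) h5 2
  have h1 : ‖∫ x in (1 : ℝ)..H, |psi x H - H| ^ 2‖ ≤ (2 * H * L) ^ 2 * |H - 1| := by
    apply intervalIntegral.norm_integral_le_of_norm_le_const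
    intro x hx
    rw [Set.uIoc_of_le hH] at hx
    rw [Real.norm_eq_abs, abs_of_nonneg (by positivity)]
    exact hb x ⟨hx.1.le, hx.2⟩
  rw [abs_of_nonneg (by linarith)] at h1
  refine (le_abs_self _).trans (h1.trans ?_)
  calc (2 * H * L) ^ 2 * (H - 1) ≤ (2 * H * L) ^ 2 * H := by
        gcongr
        linarith
    _ = _ := by ring

theorem low_part (X H J : ℝ) (n : ℕ) (t : ℝ) (ht : 3 ≤ t)
    (hX : X = t ^ (96 * n + 384)) (hH : 1 ≤ H) (hH1 : H ≤ t ^ (32 * n + 81))
    (hJ : H * (1 / 2 * Real.log X - 3 / 2 * Real.log H -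
      1 / (96 * n + 384) * Real.log X) ≤ J) : 2 * H ≤ J := by
  have ht0 : 0 < t := by linarith
  have hlt : 1 ≤ Real.log t := by
    rw [Real.le_log_iff_exp_le ht0]
    exact (Real.exp_one_lt_d9.le).trans (by linarith)
  have hlX : Real.log X = (96 * n + 384) * Real.log t := by
    rw [hX, Real.log_pow]; push_cast; ring
  have hlH : Real.log H ≤ (32 * n + 81) * Real.log t := by
    have h1 := Real.log_le_log (by linarith) hH1
    rw [Real.log_pow] at h1
    push_cast at h1
    exact h1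
  refine le_trans ?_ hJ
  have h2 : 2 ≤ 1 / 2 * Real.log X - 3 / 2 * Real.log H - 1 / (96 * n + 384) * Real.log X := by
    rw [hlX]
    have h3 : 1 / (96 * (n : ℝ) + 384) * ((96 * n + 384) * Real.log t) = Real.log t := by
      have : (96 * (n : ℝ) + 384) ≠ 0 := by positivity
      field_simp
    rw [h3]
    nlinarith
  nlinarith

theorem main (n : ℕ) : ∃ X₀ : ℝ, ∀ X H : ℝ, X₀ ≤ X → 1 ≤ H →
    H ≤ X ^ (1 - 1 / ((n : ℝ) + 4)) →
    min H (X ^ (1 / 3 - 1 / ((n : ℝ) + 4))) ≤ (1 / X) * ∫ x in H..X, |psi x H - H| ^ 2 := by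
  obtain ⟨K, hK, hcore⟩ := core
  obtain ⟨X₁, hX₁, hlow⟩ := H321VP.var_lower (1 / (96 * n + 384)) (by positivity) (by
    rw [div_le_one (by positivity)]
    have : (0 : ℝ) ≤ n := Nat.cast_nonneg n
    linarith)
  -- the parameter `t = X ^ (1 / (96 n + 384))`
  obtain ⟨N, hN⟩ : ∃ N : ℕ, N = 96 * n + 384 := ⟨_, rfl⟩
  have hN0 : N ≠ 0 := by omega
  have ht1 : Tendsto (fun X : ℝ => X ^ ((N : ℝ)⁻¹)) atTop atTop :=
    tendsto_rpow_atTop (by positivity)
  have ht2 : ∀ᶠ X : ℝ in atTop, 10 ^ 6 * (1 + Real.log X) ^ 6 ≤ X ^ ((N : ℝ)⁻¹) := by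
    have h := (isLittleO_log_rpow_atTop (by positivity : (0 : ℝ) < (N : ℝ)⁻¹ / 6)).bound
      (by norm_num : (0 : ℝ) < 1 / 20)
    filter_upwards [h, eventually_ge_atTop (Real.exp 1)] with X hX hX1
    have hX0 : 0 < X := (Real.exp_pos 1).trans_le hX1
    have hl : 1 ≤ Real.log X := by rwa [Real.le_log_iff_exp_le hX0]
    rw [Real.norm_of_nonneg (by linarith), Real.norm_of_nonneg (by positivity)] at hX
    have h1 : 1 + Real.log X ≤ 1 / 10 * X ^ ((N : ℝ)⁻¹ / 6) := by linarith
    calc 10 ^ 6 * (1 + Real.log X) ^ 6 ≤ 10 ^ 6 * (1 / 10 * X ^ ((N : ℝ)⁻¹ / 6)) ^ 6 := by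
          gcongr
      _ = (X ^ ((N : ℝ)⁻¹ / 6)) ^ 6 := by ring
      _ = X ^ ((N : ℝ)⁻¹) := by
          rw [← Real.rpow_natCast, ← Real.rpow_mul hX0.le]
          congr 1
          push_cast
          ring
  obtain ⟨X₂, hX₂⟩ := eventually_atTop.1 ((ht1.eventually_ge_atTop (max K 3)).and ht2)
  refine ⟨max (max X₁ X₂) 1, fun X H hX hH hHX => ?_⟩
  have hXX₁ : X₁ ≤ X := ((le_max_left _ _).trans (le_max_left _ _)).trans hX
  have hXX₂ : X₂ ≤ X := ((le_max_right _ _).trans (le_max_left _ _)).trans hX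
  have hX1 : 1 ≤ X := (le_max_right _ _).trans hX
  have hX0 : 0 < X := by linarith
  obtain ⟨hKt, hLt⟩ := hX₂ X hXX₂
  set t : ℝ := X ^ ((N : ℝ)⁻¹) with ht
  have htK : K ≤ t := (le_max_left _ _).trans hKt
  have ht3 : 3 ≤ t := (le_max_right _ _).trans hKt
  have ht0 : 0 < t := by linarith
  have htN : X = t ^ N := (Real.rpow_inv_natCast_pow hX0.le hN0).symm
  have hpow : ∀ m : ℕ, t ^ m = X ^ ((m : ℝ) / N) := by
    intro m
    rw [ht, ← Real.rpow_natCast, ← Real.rpow_mul hX0.le]
    congr 1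
    ring
  have hNr : (N : ℝ) = 96 * n + 384 := by rw [hN]; push_cast; ring
  have hn4 : ((n : ℝ) + 4) ≠ 0 := by positivity
  have hN4 : (96 * (n : ℝ) + 384) ≠ 0 := by positivity
  rcases le_total H (t ^ (32 * n + 81)) with hcase | hcase
  · -- short intervals
    refine (min_le_left _ _).trans ?_
    have hH13 : H ≤ X ^ (1 / 3 : ℝ) := by
      refine hcase.trans ?_
      rw [hpow]
      apply Real.rpow_le_rpow_of_exponent_le hX1
      rw [div_le_iff₀ (by rw [hNr]; positivity), hNr]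
      push_cast
      linarith
    have h2 := hlow X H hXX₁ hH hH13
    have h3 : ∫ x in (1 : ℝ)..X, |psi x H - H| ^ 2 =
        ∫ x in (1 : ℝ)..X, (H321VP.psi x H - H) ^ 2 := by
      refine intervalIntegral.integral_congr fun x _ => ?_
      simp only [sq_abs]
      rfl
    have h4 : 2 * H ≤ 1 / X * ∫ x in (1 : ℝ)..X, |psi x H - H| ^ 2 := by
      rw [h3]
      apply low_part X H _ n t ht3 (by rw [← hN]; exact htN) hH hcase
      have e0 : 1 / X * (∫ x in (1 : ℝ)..X, (H321VP.psi x H - H) ^ 2) =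
          (∫ x in (1 : ℝ)..X, (H321VP.psi x H - H) ^ 2) / X := by ring
      rw [e0, le_div_iff₀ hX0]
      refine le_trans (le_of_eq ?_) h2
      ring
    obtain ⟨L, hL⟩ : ∃ L : ℝ, L = 1 + Real.log X := ⟨_, rfl⟩
    have hlX0 : 0 ≤ Real.log X := Real.log_nonneg hX1
    have hL1 : 1 ≤ L := by rw [hL]; linarith
    have hLt' : 4 * L ^ 2 ≤ t := by
      have h5 : L ^ 2 ≤ L ^ 6 := pow_le_pow_right₀ hL1 (by norm_num)
      rw [← hL] at hLt
      have h6 : 0 ≤ L ^ 2 := by positivity
      linarith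
    have ht1' : 1 ≤ t := by linarith
    have hHt2 : H ^ 2 * t ≤ X := by
      rw [htN]
      calc H ^ 2 * t ≤ (t ^ (32 * n + 81)) ^ 2 * t := by gcongr
        _ = t ^ (64 * n + 163) := by ring
        _ ≤ t ^ N := pow_le_pow_right₀ ht1' (by omega)
    have hHX' : 2 * H ≤ X := by
      refine le_trans ?_ hHt2
      nlinarith
    have hed := edge X H L hH hHX' hL.ge
    have h7 : H * (2 * H * L) ^ 2 ≤ H * X := by
      apply mul_le_mul_of_nonneg_left _ (by linarith)
      calc (2 * H * L) ^ 2 = H ^ 2 * (4 * L ^ 2) := by ring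
        _ ≤ H ^ 2 * t := by gcongr
        _ ≤ X := hHt2
    have hsp : (∫ x in (1 : ℝ)..H, |psi x H - H| ^ 2) + ∫ x in H..X, |psi x H - H| ^ 2 =
        ∫ x in (1 : ℝ)..X, |psi x H - H| ^ 2 := by
      apply intervalIntegral.integral_add_adjacent_intervals
      · rw [intervalIntegrable_iff_integrableOn_Icc_of_le hH]
        exact (sq_int X H).mono_set (Set.Icc_subset_Icc_right (by linarith))
      · rw [intervalIntegrable_iff_integrableOn_Icc_of_le (by linarith)]
        exact (sq_int X H).mono_set (Set.Icc_subset_Icc_left hH)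
    have e1 : 1 / X * (∫ x in (1 : ℝ)..X, |psi x H - H| ^ 2) =
        (∫ x in (1 : ℝ)..X, |psi x H - H| ^ 2) / X := by ring
    have e2 : 1 / X * (∫ x in H..X, |psi x H - H| ^ 2) =
        (∫ x in H..X, |psi x H - H| ^ 2) / X := by ring
    rw [e1, le_div_iff₀ hX0, ← hsp] at h4
    rw [e2, le_div_iff₀ hX0]
    linarith
  · -- long intervals
    refine (min_le_right _ _).trans ?_
    have hX' : X = t ^ (6 * (16 * n + 40) + 144) := by
      rw [show 6 * (16 * n + 40) + 144 = N by omega]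
      exact htN
    have hHt : H ≤ t ^ (6 * (16 * n + 40) + 48) := by
      rw [hpow]
      refine hHX.trans (le_of_eq ?_)
      congr 1
      rw [hNr]
      push_cast
      field_simp
      ring
    have h1 := hcore (16 * n + 40) t (1 + Real.log X) X H (by omega) hX' rfl hLt htK
      (by rw [show 2 * (16 * n + 40) + 1 = 32 * n + 81 by ring]; exact hcase) hHt
    have hX4 : 1 ≤ X / 4 := by
      have h3 : t ^ 2 ≤ t ^ N := pow_le_pow_right₀ (by linarith) (by omega)
      rw [← htN] at h3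
      nlinarith
    have hHX2 : H ≤ X / 4 := by
      have h3 : t ^ (6 * (16 * n + 40) + 48) * t ^ 2 ≤ t ^ N := by
        rw [← pow_add]
        exact pow_le_pow_right₀ (by linarith) (by omega)
      rw [← htN] at h3
      have h4 : t ^ (6 * (16 * n + 40) + 48) * 4 ≤ t ^ (6 * (16 * n + 40) + 48) * t ^ 2 := by
        apply mul_le_mul_of_nonneg_left _ (by positivity)
        nlinarith
      linarith
    have h2 : ∫ x in Set.Icc (X / 4) (3 * X / 4), H321VP.DD ⌈X⌉₊ H x ^ 2 ≤
        ∫ x in H..X, |psi x H - H| ^ 2 := by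
      rw [intervalIntegral.integral_of_le (by linarith), ← integral_Icc_eq_integral_Ioc]
      have e1 : ∫ x in Set.Icc (X / 4) (3 * X / 4), H321VP.DD ⌈X⌉₊ H x ^ 2 =
          ∫ x in Set.Icc (X / 4) (3 * X / 4), |psi x H - H| ^ 2 := by
        apply setIntegral_congr_fun measurableSet_Icc
        intro x hx
        simp only
        rw [sq_abs]
        have h3 : psi x H - H = H321VP.DD ⌈X⌉₊ H x := by
          apply H321VP.psi_eq
          have := Nat.le_ceil X
          have := hx.2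
          linarith
        rw [h3]
      rw [e1]
      apply setIntegral_mono_set
      · exact (sq_int X H).mono_set (Set.Icc_subset_Icc_left hH)
      · exact Filter.Eventually.of_forall fun x => by positivity
      · exact (Set.Icc_subset_Icc hHX2 (by linarith)).eventuallyLE
    have e0 : 1 / X * (∫ x in H..X, |psi x H - H| ^ 2) =
        (∫ x in H..X, |psi x H - H| ^ 2) / X := by ring
    rw [e0, le_div_iff₀ hX0]
    refine le_trans ?_ (h1.trans h2)
    have e2 : X ^ (1 / 3 - 1 / ((n : ℝ) + 4)) * X = t ^ (128 * n + 416) := by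
      rw [hpow, hNr]
      conv_lhs => rw [← Real.rpow_add_one hX0.ne']
      congr 1
      push_cast
      field_simp
      ring
    rw [e2]
    exact pow_le_pow_right₀ (by linarith) (by omega)

/-- For all large `X` and all `1 ≤ H ≤ X ^ (1 - ε)` the variance over `x ∈ [H, X]` is at least
`min H (X ^ (1 / 3 - ε))`. -/
theorem result : ∀ ε : ℝ, 0 < ε → ∃ X₀ : ℝ, ∀ X H : ℝ, X₀ ≤ X → 1 ≤ H → H ≤ X ^ (1 - ε) →
    min H (X ^ (1 / 3 - ε)) ≤ (1 / X) * ∫ x in H..X, |psi x H - H| ^ 2 := by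
  intro ε hε
  obtain ⟨n, hn⟩ := exists_nat_gt (1 / ε)
  obtain ⟨X₀, h⟩ := main n
  have hn0 : (0 : ℝ) ≤ n := Nat.cast_nonneg n
  have h1 : 1 / ((n : ℝ) + 4) ≤ ε := by
    rw [div_le_iff₀ (by positivity)]
    rw [div_lt_iff₀ hε] at hn
    nlinarith
  refine ⟨max X₀ 1, fun X H hX hH hHX => ?_⟩
  have hX1 : 1 ≤ X := (le_max_right _ _).trans hX
  have h2 := h X H ((le_max_left _ _).trans hX) hH (hHX.trans
    (Real.rpow_le_rpow_of_exponent_le hX1 (by linarith)))
  refine le_trans ?_ h2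
  apply min_le_min_left
  exact Real.rpow_le_rpow_of_exponent_le hX1 (by linarith)

end Pool.Agent.Results.MP_2a816b_nt.EveryLength
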