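import Pool.Agent.D0H44.GM.Da
import Pool.Agent.Y857.VP.Var

/-! An unconditional lower bound for the variance of primes in short intervals of length between
`X ^ (1 / 2)` and `X ^ (1 - ε)`. -/

set_option autoImplicit false

open MeasureTheory Filter Topology

namespace Pool.Agent.Results.MP_2a816b_nt.LongIntervals

open Pool.Agent.Y857.VP (AA AA_diff_bound null_set sq_ii)
open Pool.Agent.D0H44.GM (DV disp_grid DV_ii DV_mono)

/-- The weighted number of prime powers in the interval of length `H` centred at `x`. -/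
noncomputable def psi (x H : ℝ) : ℝ :=
  ∑ᶠ n ∈ {n : ℕ | 1 ≤ n ∧ x - H / 2 ≤ n ∧ (n : ℝ) ≤ x + H / 2}, ArithmeticFunction.vonMangoldt n

theorem psi_def (x H : ℝ) : psi x H = Pool.Agent.Y857.VP.psi x H := rfl

theorem DV_le (X H E F : ℝ) (hH : 0 ≤ H) (hH1 : 1 ≤ H) (hHX : H ≤ X) (hE : 2 * H ≤ E)
    (hEH : H < E) (hEF : E ≤ F) (hF : F ≤ X + H / 2) (hX : 1 ≤ X) :
    32 * DV E F H ≤ (∫ x in H..X, |psi x H - H| ^ 2) + X := by
  have e1 : DV E F H = ∫ x in (E - H / 2)..(F - H / 2), (AA (x + H / 2) - AA (x - H / 2)) ^ 2 := by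
    unfold DV
    have h := intervalIntegral.integral_comp_add_right (a := E - H / 2) (b := F - H / 2)
      (fun y => (AA y - AA (y - H)) ^ 2) (H / 2)
    have e2 : ∀ x : ℝ, x + H / 2 - H = x - H / 2 := fun x => by ring
    simp only [sub_add_cancel, e2] at h
    exact h.symm
  have hAi : IntervalIntegrable (fun x => (AA (x + H / 2) - AA (x - H / 2)) ^ 2) volume
      (E - H / 2) (F - H / 2) := by
    have h := (DV_ii H E F).comp_add_right (H / 2)
    have e2 : ∀ x : ℝ, x + H / 2 - H = x - H / 2 := fun x => by ring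
    simp only [e2] at h
    exact h
  have hle : E - H / 2 ≤ F - H / 2 := by linarith
  have hi := sq_ii H (E - H / 2) (F - H / 2) (by linarith) hle hH
  have hmono : ∫ x in (E - H / 2)..(F - H / 2), (AA (x + H / 2) - AA (x - H / 2)) ^ 2 ≤
      ∫ x in (E - H / 2)..(F - H / 2), (|Pool.Agent.Y857.VP.psi x H - H| ^ 2 / 32 + 1 / 32) := by
    apply intervalIntegral.integral_mono_ae_restrict hle hAi ((hi.div_const _).add (by simp))
    have h2 := ae_restrict_of_ae (s := Set.Icc (E - H / 2) (F - H / 2)) (null_set H)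
    filter_upwards [h2, ae_restrict_mem measurableSet_Icc] with x hx1 hx2
    exact AA_diff_bound x H hH (by linarith [hx2.1]) hx1
  have hsplit : ∫ x in (E - H / 2)..(F - H / 2), (|Pool.Agent.Y857.VP.psi x H - H| ^ 2 / 32 + 1 / 32) =
      (∫ x in (E - H / 2)..(F - H / 2), |Pool.Agent.Y857.VP.psi x H - H| ^ 2) / 32 +
        (F - E) * (1 / 32) := by
    rw [intervalIntegral.integral_add (hi.div_const _) (by simp),
      intervalIntegral.integral_div, intervalIntegral.integral_const, smul_eq_mul]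
    ring
  have hmono2 : ∫ x in (E - H / 2)..(F - H / 2), |Pool.Agent.Y857.VP.psi x H - H| ^ 2 ≤
      ∫ x in H..X, |Pool.Agent.Y857.VP.psi x H - H| ^ 2 := by
    apply intervalIntegral.integral_mono_interval (by linarith) hle (by linarith)
    · exact Eventually.of_forall fun x => by positivity
    · exact sq_ii H H X (by linarith) hHX hH
  simp only [psi_def]
  rw [e1]
  linarith

theorem main (ε : ℝ) (hε0 : 0 < ε) (hε1 : ε ≤ 1 / 8) : ∃ X₀ : ℝ, ∀ X H : ℝ, X₀ ≤ X →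
    X ^ (1 / 2 : ℝ) ≤ H → H ≤ X ^ (1 - ε) →
    H ^ (3 / 2 : ℝ) * X ^ (-(1 / 2) - ε) ≤ (1 / X) * ∫ x in H..X, |psi x H - H| ^ 2 := by
  obtain ⟨η, hη⟩ : ∃ η : ℝ, η = ε / 5 := ⟨_, rfl⟩
  have hη0 : 0 < η := by rw [hη]; positivity
  have hη1 : η ≤ 1 / 40 := by rw [hη]; linarith
  obtain ⟨I, hI⟩ := exists_nat_ge (13 / (ε * η))
  obtain ⟨c, T₀, hc, hdisp⟩ := disp_grid η hη0 (by linarith) I
  obtain ⟨w, hw⟩ : ∃ w : ℝ, w = ε / (2 + 10 * η) := ⟨_, rfl⟩
  have hw0 : 0 < w := by rw [hw]; positivity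
  have ht1 : Tendsto (fun X : ℝ => X ^ w) atTop atTop := tendsto_rpow_atTop hw0
  have ht2 : Tendsto (fun X : ℝ => X ^ (ε / 2)) atTop atTop := tendsto_rpow_atTop (by positivity)
  obtain ⟨M, hM⟩ : ∃ M : ℝ, M = max (max T₀ (Real.exp 1)) (4 + 2 ^ (1 / η)) := ⟨_, rfl⟩
  obtain ⟨X₂, hX₂⟩ := eventually_atTop.1 ((ht1.eventually_ge_atTop M).and
    (ht2.eventually_ge_atTop (1 / (16 * c))))
  refine ⟨max X₂ 16, fun X H hX hH1 hH2 => ?_⟩
  obtain ⟨hXM, hXc⟩ := hX₂ X ((le_max_left _ _).trans hX)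
  have hX16 : 16 ≤ X := (le_max_right _ _).trans hX
  have hX1 : 1 ≤ X := by linarith
  have hX0 : 0 < X := by linarith
  have hH0 : 0 < H := lt_of_lt_of_le (Real.rpow_pos_of_pos hX0 _) hH1
  have hlX : 0 < Real.log X := Real.log_pos (by linarith)
  -- the height
  obtain ⟨T, hT⟩ : ∃ T : ℝ, T = (X / H) ^ (1 / (2 + 10 * η)) := ⟨_, rfl⟩
  have hXH0 : 0 < X / H := by positivity
  have hT0 : 0 < T := by rw [hT]; exact Real.rpow_pos_of_pos hXH0 _
  have hXH1 : X ^ ε ≤ X / H := by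
    rw [le_div_iff₀ hH0]
    calc X ^ ε * H ≤ X ^ ε * X ^ (1 - ε) := mul_le_mul_of_nonneg_left hH2 (by positivity)
      _ = X := by
        rw [← Real.rpow_add hX0]
        norm_num
  have hXH2 : X / H ≤ X ^ (1 / 2 : ℝ) := by
    rw [div_le_iff₀ hH0]
    calc X = X ^ (1 / 2 : ℝ) * X ^ (1 / 2 : ℝ) := by
          rw [← Real.rpow_add hX0]
          norm_num
      _ ≤ X ^ (1 / 2 : ℝ) * H := mul_le_mul_of_nonneg_left hH1 (by positivity)
  have hTw : X ^ w ≤ T := by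
    rw [hT]
    calc X ^ w = (X ^ ε) ^ (1 / (2 + 10 * η)) := by
          rw [← Real.rpow_mul hX0.le, hw]
          congr 1
          ring
      _ ≤ _ := Real.rpow_le_rpow (by positivity) hXH1 (by positivity)
  have hTM : M ≤ T := hXM.trans hTw
  rw [hM] at hTM
  simp only [max_le_iff] at hTM
  obtain ⟨⟨hTT0, hTe⟩, hT4⟩ := hTM
  have h2η0 : (0 : ℝ) < 2 ^ (1 / η) := by positivity
  have hT1 : 1 < T := by linarith
  have hlT : 1 ≤ Real.log T := by rwa [Real.le_log_iff_exp_le hT0]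
  have hT2η : 2 ≤ T ^ η := by
    calc (2 : ℝ) = (2 ^ (1 / η)) ^ η := by
          rw [← Real.rpow_mul (by norm_num)]
          have : 1 / η * η = 1 := by field_simp
          rw [this, Real.rpow_one]
      _ ≤ T ^ η := Real.rpow_le_rpow h2η0.le (by linarith) hη0.le
  -- `X = T ^ β`
  obtain ⟨β, hβ⟩ : ∃ β : ℝ, β = Real.log X / Real.log T := ⟨_, rfl⟩
  have hlT0 : 0 < Real.log T := by linarith
  have hβT : T ^ β = X := by
    rw [Real.rpow_def_of_pos hT0, hβ, mul_div_cancel₀ _ hlT0.ne', Real.exp_log hX0]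
  have hTX : T ^ (2 + 10 * η) = X / H := by
    rw [hT, ← Real.rpow_mul hXH0.le]
    have : 1 / (2 + 10 * η) * (2 + 10 * η) = 1 := by field_simp
    rw [this, Real.rpow_one]
  have hHT : H = T ^ (β - 2 - 10 * η) := by
    have : T ^ (β - 2 - 10 * η) = T ^ β / T ^ (2 + 10 * η) := by
      rw [← Real.rpow_sub hT0]
      congr 1
      ring
    rw [this, hβT, hTX]
    field_simp
  have hβ1 : 4 + 20 * η ≤ β := by
    have h1 : T ^ (2 * (2 + 10 * η)) ≤ T ^ β := by
      rw [hβT, mul_comm, Real.rpow_mul hT0.le, hTX]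
      calc (X / H) ^ (2 : ℝ) ≤ (X ^ (1 / 2 : ℝ)) ^ (2 : ℝ) :=
            Real.rpow_le_rpow hXH0.le hXH2 (by norm_num)
        _ = X := by
          rw [← Real.rpow_mul hX0.le]
          norm_num
    have := (Real.rpow_le_rpow_left_iff hT1).1 h1
    linarith
  have hβ2 : β ≤ (2 + 10 * η) / ε := by
    have h1 : X ^ w ≤ T := hTw
    have h2 : T ^ (β * w) ≤ T ^ (1 : ℝ) := by
      rw [Real.rpow_mul hT0.le, hβT, Real.rpow_one]
      exact h1
    have h3 := (Real.rpow_le_rpow_left_iff hT1).1 h2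
    rw [hw] at h3
    rw [le_div_iff₀ hε0]
    have h4 : β * (ε / (2 + 10 * η)) = β * ε / (2 + 10 * η) := by ring
    rw [h4, div_le_iff₀ (by positivity)] at h3
    linarith
  -- the exponent
  obtain ⟨y, hy⟩ : ∃ y : ℝ, y = (β - 1 - 8 * η) / η := ⟨_, rfl⟩
  have hyη : y * η = β - 1 - 8 * η := by
    rw [hy]
    field_simp
  have hy0 : 0 ≤ y := by
    rw [hy]
    apply div_nonneg _ hη0.le
    linarith
  obtain ⟨i, hi⟩ : ∃ i : ℕ, i = ⌊y⌋₊ := ⟨_, rfl⟩
  have hi1 : (i : ℝ) ≤ y := by rw [hi]; exact Nat.floor_le hy0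
  have hi2 : y < i + 1 := by rw [hi]; exact Nat.lt_floor_add_one _
  have hiη1 : (i : ℝ) * η ≤ β - 1 - 8 * η := by
    rw [← hyη]
    exact mul_le_mul_of_nonneg_right hi1 hη0.le
  have hiη2 : β - 1 - 9 * η ≤ (i : ℝ) * η := by
    have := mul_le_mul_of_nonneg_right hi2.le hη0.le
    rw [hyη] at this
    linarith
  have hiI : i ≤ I := by
    have h1 : (i : ℝ) ≤ I := by
      refine hi1.trans (le_trans ?_ hI)
      rw [hy, div_le_div_iff₀ hη0 (by positivity)]
      have h2 : β * ε ≤ 2 + 10 * η := by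
        rwa [le_div_iff₀ hε0] at hβ2
      have h3 : (β - 1 - 8 * η) * ε ≤ 13 := by
        have : 0 ≤ (1 + 8 * η) * ε := by positivity
        linarith
      calc (β - 1 - 8 * η) * (ε * η) = ((β - 1 - 8 * η) * ε) * η := by ring
        _ ≤ 13 * η := mul_le_mul_of_nonneg_right h3 hη0.le
    exact_mod_cast h1
  have hH' : H ≤ T ^ ((i : ℝ) * η - 1 - η) := by
    rw [hHT]
    exact Real.rpow_le_rpow_of_exponent_le hT1.le (by linarith)
  have hd := hdisp i hiI (by linarith) T hTT0 H hH0 hH'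
  -- the range of integration
  have hH4 : 4 ≤ H := by
    calc (4 : ℝ) = (16 : ℝ) ^ (1 / 2 : ℝ) := by
          rw [show (16 : ℝ) = 4 ^ (2 : ℝ) by norm_num, ← Real.rpow_mul (by norm_num)]
          norm_num
      _ ≤ X ^ (1 / 2 : ℝ) := Real.rpow_le_rpow (by norm_num) hX16 (by norm_num)
      _ ≤ H := hH1
  have hE : 2 * H ≤ T ^ ((i : ℝ) * η) / 2 := by
    have h1 : H * T ≤ T ^ ((i : ℝ) * η) := by
      calc H * T ≤ T ^ ((i : ℝ) * η - 1 - η) * T := mul_le_mul_of_nonneg_right hH' hT0.le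
        _ = T ^ ((i : ℝ) * η - η) := by
          nth_rewrite 2 [← Real.rpow_one T]
          rw [← Real.rpow_add hT0]
          congr 1
          ring
        _ ≤ _ := Real.rpow_le_rpow_of_exponent_le hT1.le (by linarith)
    have h3 : H * 4 ≤ H * T := mul_le_mul_of_nonneg_left (by linarith) hH0.le
    linarith
  have hF : T ^ ((i : ℝ) * η + 1 + 7 * η) ≤ X / 2 := by
    rw [le_div_iff₀ (by norm_num), ← hβT]
    calc T ^ ((i : ℝ) * η + 1 + 7 * η) * 2 ≤ T ^ ((i : ℝ) * η + 1 + 7 * η) * T ^ η :=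
          mul_le_mul_of_nonneg_left hT2η (by positivity)
      _ = T ^ ((i : ℝ) * η + 1 + 8 * η) := by
          rw [← Real.rpow_add hT0]
          congr 1
          ring
      _ ≤ T ^ β := Real.rpow_le_rpow_of_exponent_le hT1.le (by linarith)
  have hEF : T ^ ((i : ℝ) * η) / 2 ≤ T ^ ((i : ℝ) * η + 1 + 7 * η) := by
    have h1 : T ^ ((i : ℝ) * η) ≤ T ^ ((i : ℝ) * η + 1 + 7 * η) :=
      Real.rpow_le_rpow_of_exponent_le hT1.le (by linarith)
    have h2 : 0 < T ^ ((i : ℝ) * η) := by positivity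
    linarith
  have hHX' : H ≤ X := by linarith
  have hDV := DV_le X H _ _ hH0.le (by linarith) hHX' hE (by linarith) hEF
    (by linarith : T ^ ((i : ℝ) * η + 1 + 7 * η) ≤ X + H / 2) hX1
  obtain ⟨J, hJ⟩ : ∃ J, J = ∫ x in H..X, |psi x H - H| ^ 2 := ⟨_, rfl⟩
  rw [← hJ] at hDV ⊢
  have h1 : 32 * (c * H ^ 2 * T) ≤ J + X := by
    have h2 : c * H ^ 2 * T ≤ c * H ^ 2 * T * Real.log T ^ 2 := by
      apply le_mul_of_one_le_right (by positivity)
      exact one_le_pow₀ hlT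
    linarith
  -- the size of `H ^ 2 T`
  obtain ⟨R, hR⟩ : ∃ R : ℝ, R = H ^ (3 / 2 : ℝ) * X ^ (-(1 / 2) - ε) := ⟨_, rfl⟩
  rw [← hR]
  have hR1 : 1 ≤ R := by
    rw [hR]
    have h2 : (X ^ (1 / 2 : ℝ)) ^ (3 / 2 : ℝ) ≤ H ^ (3 / 2 : ℝ) :=
      Real.rpow_le_rpow (by positivity) hH1 (by norm_num)
    rw [← Real.rpow_mul hX0.le] at h2
    calc (1 : ℝ) ≤ X ^ (1 / 2 * (3 / 2) + (-(1 / 2) - ε)) := by
          apply Real.one_le_rpow hX1
          linarith
      _ = X ^ (1 / 2 * (3 / 2) : ℝ) * X ^ (-(1 / 2) - ε) := Real.rpow_add hX0 _ _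
      _ ≤ _ := mul_le_mul_of_nonneg_right h2 (by positivity)
  have hTlow : X ^ (1 / 2 - ε / 2) ≤ T * H ^ (1 / 2 : ℝ) := by
    -- `T = (X / H) ^ (1 / (2 + 10 η)) ≥ (X / H) ^ (1 / 2 - 5 η / 2)`
    have h2 : (X / H) ^ (1 / 2 - ε / 2) ≤ T := by
      rw [hT]
      apply Real.rpow_le_rpow_of_exponent_le
      · exact (Real.one_le_rpow hX1 hε0.le).trans hXH1
      · rw [le_div_iff₀ (by positivity), hη]
        nlinarith
    have h3 : X ^ (1 / 2 - ε / 2) = (X / H) ^ (1 / 2 - ε / 2) * H ^ (1 / 2 - ε / 2) := by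
      rw [← Real.mul_rpow hXH0.le hH0.le]
      congr 1
      field_simp
    rw [h3]
    apply mul_le_mul h2 _ (by positivity) hT0.le
    apply Real.rpow_le_rpow_of_exponent_le _ (by linarith)
    exact (Real.one_le_rpow hX1 (by norm_num)).trans hH1
  have h2 : R * X ^ (ε / 2) * X ≤ H ^ 2 * T := by
    have e1 : R * X ^ (ε / 2) * X = H ^ (3 / 2 : ℝ) * X ^ (1 / 2 - ε / 2) := by
      have e2 : X ^ (1 / 2 - ε / 2) = X ^ (-(1 / 2) - ε) * X ^ (ε / 2) * X ^ (1 : ℝ) := by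
        rw [← Real.rpow_add hX0, ← Real.rpow_add hX0]
        congr 1
        ring
      rw [e2, hR, Real.rpow_one]
      ring
    rw [e1]
    calc H ^ (3 / 2 : ℝ) * X ^ (1 / 2 - ε / 2) ≤ H ^ (3 / 2 : ℝ) * (T * H ^ (1 / 2 : ℝ)) :=
          mul_le_mul_of_nonneg_left hTlow (by positivity)
      _ = (H ^ (3 / 2 : ℝ) * H ^ (1 / 2 : ℝ)) * T := by ring
      _ = H ^ 2 * T := by
          rw [← Real.rpow_add hH0]
          norm_num
  have h3 : 2 ≤ 32 * c * X ^ (ε / 2) := by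
    rw [div_le_iff₀ (by positivity)] at hXc
    linarith
  have h4 : 2 * R * X ≤ J + X := by
    calc 2 * R * X ≤ (32 * c * X ^ (ε / 2)) * R * X := by
          apply mul_le_mul_of_nonneg_right _ hX0.le
          exact mul_le_mul_of_nonneg_right h3 (by linarith)
      _ = 32 * (c * (R * X ^ (ε / 2) * X)) := by ring
      _ ≤ 32 * (c * (H ^ 2 * T)) := by
          apply mul_le_mul_of_nonneg_left _ (by norm_num)
          exact mul_le_mul_of_nonneg_left h2 hc.le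
      _ = 32 * (c * H ^ 2 * T) := by ring
      _ ≤ _ := h1
  have h5 : 1 / X * J = J / X := by ring
  rw [h5, le_div_iff₀ hX0]
  nlinarith

/-- For all large `X` and all `X ^ (1 / 2) ≤ H ≤ X ^ (1 - ε)` the variance over `x ∈ [H, X]` is at
least `H ^ (3 / 2) * X ^ (- 1 / 2 - ε)`. -/
theorem result : ∀ ε : ℝ, 0 < ε → ∃ X₀ : ℝ, ∀ X H : ℝ, X₀ ≤ X →
    X ^ (1 / 2 : ℝ) ≤ H → H ≤ X ^ (1 - ε) →
    H ^ (3 / 2 : ℝ) * X ^ (-(1 / 2) - ε) ≤ (1 / X) * ∫ x in H..X, |psi x H - H| ^ 2 := by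
  intro ε hε
  obtain ⟨X₀, h⟩ := main (min ε (1 / 8)) (lt_min hε (by norm_num)) (min_le_right _ _)
  refine ⟨max X₀ 1, fun X H hX hH1 hH2 => ?_⟩
  have hX1 : 1 ≤ X := (le_max_right _ _).trans hX
  have hm : min ε (1 / 8) ≤ ε := min_le_left _ _
  have h2 := h X H ((le_max_left _ _).trans hX) hH1 (hH2.trans
    (Real.rpow_le_rpow_of_exponent_le hX1 (by linarith)))
  refine le_trans ?_ h2
  have hH0 : 0 ≤ H := le_trans (by positivity) hH1
  apply mul_le_mul_of_nonneg_left _ (by positivity)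
  exact Real.rpow_le_rpow_of_exponent_le hX1 (by linarith)

end Pool.Agent.Results.MP_2a816b_nt.LongIntervals
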