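import Pool.Agent.D0H68.RV.App

/-!
# The variance in short intervals under independent random perturbations

Let `ξ_n` be independent random variables with `|ξ_n| ≤ C (log (n + 3)) ^ κ`, means `m_n` and variances `v_n`. Almost
surely, uniformly for `X ^ ε ≤ H ≤ X ^ (1 - ε)`, the mean square of `∑ ξ_n - H` over the intervals of length `H`
centred in `[X, 2X]` is the mean square of `∑ m_n - H` plus `H` times the mean of the `v_n` over `(X, 2X]`. So the
asymptotic formula of Goldston-Montgomery and Montgomery-Soundararajan holds almost surely for `ξ` if it holds for the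
mean `m` and `∑_{X < n ≤ 2X} v_n = o(X log X)`, and otherwise it fails almost surely. Consequences.

* For independent bounded factors `η_n` of mean `1`: if `Var η_n → 0` then almost surely the formula for `Λ(n) η_n` is
  equivalent to the formula for the primes; if `Var η_n ≥ s > 0` then unconditionally it fails almost surely, and the
  mean square is at least `(s - ε) H log X` for all these `H` (example: `η_n = 1 / t` with probability `t`, otherwise
  `0`, a random subset of the primes; `s = (1 - t) / t`).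
* The formula fails almost surely in every random model of the primes with independent events of probabilities
  `≤ ϑ < 1`, in particular in all the models with a sieve (Cramer, Granville).

Proof. For every residue class of starting points the windows of length `H` are disjoint, so Hoeffding's inequality for
the truncated squares of the centred sums applies, with an exponent which is a power of `X`; the cross term with an
arbitrary deterministic function is a linear form; a union bound over all windows.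
-/

set_option autoImplicit false

open MeasureTheory ProbabilityTheory Filter Topology Finset

namespace Pool.Agent.Results.MP_2a816b_nt.RandomPerturbations

/-- The sum of `f n` over the integers `n ≥ 1` with `x - H / 2 ≤ n ≤ x + H / 2`; for the von Mangoldt function
`f = Λ` this is the `ψ(x;H)` of the problem. -/
noncomputable def S (f : ℕ → ℝ) (x H : ℝ) : ℝ :=
  ∑ᶠ n ∈ {n : ℕ | 1 ≤ n ∧ x - H / 2 ≤ n ∧ (n : ℝ) ≤ x + H / 2}, f n

/-- The mean square of `S f x H - H` over `X ≤ x ≤ 2 X`. -/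
noncomputable def MS (f : ℕ → ℝ) (X H : ℝ) : ℝ := (1 / X) * ∫ x in X..(2 * X), |S f x H - H| ^ 2

/-- The sum of `v n` over `X < n ≤ 2 X`, divided by `X`. -/
noncomputable def V (v : ℕ → ℝ) (X : ℝ) : ℝ := (1 / X) * ∑ n ∈ Ioc ⌊X⌋₊ ⌊2 * X⌋₊, v n

/-- The right side `H (log X - log H - (γ + log 2π))` of Q1. -/
noncomputable def R (X H : ℝ) : ℝ :=
  H * (Real.log X - Real.log H - (Real.eulerMascheroniConstant + Real.log (2 * Real.pi)))

/-- The asymptotic formula of Q1 for the weights `f`: `MS f X H ∼ R X H`, uniformly for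
`X ^ ε < H < X ^ (1 - ε)`, for every `ε > 0`. -/
def Formula (f : ℕ → ℝ) : Prop :=
  ∀ ε : ℝ, 0 < ε → ∀ δ : ℝ, 0 < δ → ∀ᶠ X : ℝ in atTop, ∀ H : ℝ, X ^ ε < H → H < X ^ (1 - ε) →
    |MS f X H - R X H| ≤ δ * R X H

/-- The law `MS f = H V v + MS m + o(H + MS m)`, uniformly for `X ^ ε ≤ H ≤ X ^ (1 - ε)`, for every `ε > 0`. -/
def ExactLaw (f m v : ℕ → ℝ) : Prop :=
  ∀ ε : ℝ, 0 < ε → ∀ᶠ X : ℝ in atTop, ∀ H : ℝ, X ^ ε ≤ H → H ≤ X ^ (1 - ε) →
    |MS f X H - (H * V v X + MS m X H)| ≤ ε * (H + MS m X H)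

theorem formula_iff (f : ℕ → ℝ) : Formula f ↔ Pool.Agent.D0H68.RV.Law f := Iff.rfl

theorem exact_iff (f m v : ℕ → ℝ) : ExactLaw f m v ↔ Pool.Agent.D0H68.RV.Exact f m v := Iff.rfl

theorem result :
    -- (1) independent random weights
    (∀ (Ω : Type) [MeasurableSpace Ω] (μ : Measure Ω) [IsProbabilityMeasure μ] (ξ : ℕ → Ω → ℝ),
      iIndepFun ξ μ → (∀ n, Measurable (ξ n)) →
      (∃ (C : ℝ) (κ : ℕ), ∀ n ω, |ξ n ω| ≤ C * Real.log (n + 3) ^ κ) →
      ∀ᵐ ω ∂μ, ExactLaw (fun n => ξ n ω) (fun n => μ[ξ n]) (fun n => Var[ξ n; μ]) ∧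
        (Formula (fun n => ξ n ω) ↔ Formula (fun n => μ[ξ n]) ∧
          ∀ δ : ℝ, 0 < δ → ∀ᶠ X : ℝ in atTop, V (fun n => Var[ξ n; μ]) X ≤ δ * Real.log X)) ∧
    -- (2) independent random factors at the primes
    (∀ (Ω : Type) [MeasurableSpace Ω] (μ : Measure Ω) [IsProbabilityMeasure μ] (η : ℕ → Ω → ℝ),
      iIndepFun η μ → (∀ n, Measurable (η n)) → (∃ B : ℝ, ∀ n ω, |η n ω| ≤ B) → (∀ n, μ[η n] = 1) →
      (Tendsto (fun n => Var[η n; μ]) atTop (𝓝 0) →
        ∀ᵐ ω ∂μ, (Formula (fun n => ArithmeticFunction.vonMangoldt n * η n ω) ↔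
          Formula (fun n => ArithmeticFunction.vonMangoldt n))) ∧
      (∀ s : ℝ, 0 < s → (∀ᶠ n in atTop, s ≤ Var[η n; μ]) →
        ∀ᵐ ω ∂μ, ¬ Formula (fun n => ArithmeticFunction.vonMangoldt n * η n ω) ∧
          ∀ ε : ℝ, 0 < ε → ∀ᶠ X : ℝ in atTop, ∀ H : ℝ, X ^ ε ≤ H → H ≤ X ^ (1 - ε) →
            (s - ε) * (H * Real.log X) ≤ MS (fun n => ArithmeticFunction.vonMangoldt n * η n ω) X H)) ∧
    -- (3) random sets of integers
    (∀ (Ω : Type) [MeasurableSpace Ω] (μ : Measure Ω) [IsProbabilityMeasure μ] (E : ℕ → Set Ω),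
      (∀ n, MeasurableSet (E n)) → iIndepSet E μ →
      ∀ ϑ : ℝ, ϑ < 1 → (∀ᶠ n in atTop, μ.real (E n) ≤ ϑ) →
      Tendsto (V fun n => μ.real (E n) * Real.log n) atTop (𝓝 1) →
      ∀ᵐ ω ∂μ, ¬ Formula (fun n => (E n).indicator (fun _ => Real.log n) ω) ∧
        ∀ ε : ℝ, 0 < ε → ∀ᶠ X : ℝ in atTop, ∀ H : ℝ, X ^ ε ≤ H → H ≤ X ^ (1 - ε) →
          (1 - ϑ - ε) * (H * Real.log X) ≤ MS (fun n => (E n).indicator (fun _ => Real.log n) ω) X H) := by
  refine ⟨?_, ?_, ?_⟩
  · intro Ω _ μ _ ξ hi hm ⟨C, κ, hb⟩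
    have hb' : ∀ n ω, |ξ n ω| ≤ |C| * Real.log (n + 3) ^ κ := fun n ω => by
      refine (hb n ω).trans (mul_le_mul_of_nonneg_right (le_abs_self C) (pow_nonneg (Real.log_nonneg ?_) κ))
      have : (0 : ℝ) ≤ n := Nat.cast_nonneg n
      linarith
    have hex := Pool.Agent.D0H68.RV.exact_ae (μ := μ) hi hm (abs_nonneg C) κ hb'
    have hvar : (fun n => ∫ ω', (ξ n ω' - ∫ ω'', ξ n ω'' ∂μ) ^ 2 ∂μ) = fun n => Var[ξ n; μ] := by
      funext n
      rw [variance_eq_integral (hm n).aemeasurable]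
    rw [hvar] at hex
    filter_upwards [hex] with ω hω
    exact ⟨hω, Pool.Agent.D0H68.RV.law_iff (fun n => variance_nonneg _ _) hω⟩
  · intro Ω _ μ _ η hi hm ⟨B, hb⟩ h1
    have hex := Pool.Agent.D0H68.RV.perturb (μ := μ) hi hm hb h1
    have hvar : (fun n => ArithmeticFunction.vonMangoldt n ^ 2 * ∫ ω', (η n ω' - 1) ^ 2 ∂μ) =
        fun n => ArithmeticFunction.vonMangoldt n ^ 2 * Var[η n; μ] := by
      funext n
      rw [variance_eq_integral (hm n).aemeasurable, h1]
    rw [hvar] at hex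
    constructor
    · intro hV
      filter_upwards [hex] with ω hω
      have h2 := Pool.Agent.D0H68.RV.law_iff
        (fun n => mul_nonneg (sq_nonneg _) (variance_nonneg _ _)) hω
      exact h2.trans (and_iff_left (Pool.Agent.D0H68.RV.V_small hV))
    · intro s hs hV
      have h3 := Pool.Agent.D0H68.RV.V_large hs hV
      filter_upwards [hex] with ω hω
      exact ⟨Pool.Agent.D0H68.RV.not_law hω hs h3, Pool.Agent.D0H68.RV.lower hω h3⟩
  · intro Ω _ μ _ E hE hi ϑ hϑ hp hd
    exact Pool.Agent.D0H68.RV.random_sets hE hi hϑ hp hd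

end Pool.Agent.Results.MP_2a816b_nt.RandomPerturbations
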