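import Pool.Agent.D0H91.US.Var

/-!
# Primes in short intervals sampled along `α n ^ k`

Every statistic of the numbers `ψ(x;H)` with `H` up to a small power of `x`, in particular the variance of the
problem, has the same value (up to a power saving) along the sparse sequence `x = α n ^ k` as on average over all `x`,
for every real `k > 0` and almost every `α > 0`; so the sampled variance satisfies unconditionally the lower bound of
the starting result `VarianceLower`.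

Proof: the universal sampling theorem `Pool.Agent.D0H91.US.us_ae` (for arbitrary functions `b` of moderate growth and
almost every `α`, `∑_{n ≤ N} b ⌊α n ^ k⌋` is `∫_0^N b ⌊α u ^ k⌋ du` up to `N ^ (1 - c)`), applied to
`b = Φ_H (ψ(m/2;H))` for all `H` at once.
-/

set_option autoImplicit false

namespace Pool.Agent.Results.MP_2a816b_nt.SampledVariance

open Filter Topology MeasureTheory Finset

/-- The weighted number of prime powers in the interval of length `H` centred at `x`. -/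
noncomputable def psi (x H : ℝ) : ℝ :=
  ∑ᶠ n ∈ {n : ℕ | 1 ≤ n ∧ x - H / 2 ≤ n ∧ (n : ℝ) ≤ x + H / 2}, ArithmeticFunction.vonMangoldt n

theorem result :
    (∀ k : ℝ, 0 < k → ∀ A : ℕ, ∃ c : ℝ, 0 < c ∧ ∀ Φ : ℕ → ℝ → ℂ, (∀ H y, ‖Φ H y‖ ≤ (1 + H + |y|) ^ A) →
      ∀ᵐ α : ℝ, 0 < α → ∀ᶠ N : ℕ in atTop, ∀ H : ℕ, (H : ℝ) ≤ (N : ℝ) ^ c →
        ‖∑ n ∈ Icc 1 N, Φ H (psi (α * (n : ℝ) ^ k) H) - ∫ u in (0 : ℝ)..N, Φ H (psi (α * u ^ k) H)‖ ≤
          (N : ℝ) ^ (1 - c)) ∧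
    (∀ k : ℝ, 1 ≤ k → ∃ c : ℝ, 0 < c ∧ ∀ᵐ α : ℝ, 0 < α → ∀ ε : ℝ, 0 < ε → ∀ᶠ N : ℕ in atTop,
      ∀ H : ℕ, 1 ≤ H → (H : ℝ) ≤ (N : ℝ) ^ c →
        N * H * ((1 / 2 - ε) * Real.log N - 3 / (2 * k) * Real.log H) ≤
          ∑ n ∈ Icc 1 N, |psi (α * (n : ℝ) ^ k) H - H| ^ 2) :=
  ⟨Pool.Agent.D0H91.US.sampled, Pool.Agent.D0H91.US.var_low⟩

end Pool.Agent.Results.MP_2a816b_nt.SampledVariance
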